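import Pool.Agent.Lib_MP_25a3c1.Basic

namespace Pool.Agent.Lib_MP_25a3c1

open MeasureTheory

variable {m : ℕ}

/-- index of a smallest job among `p 0, ..., p t` -/
noncomputable def am (p : ℕ → ℝ) : ℕ → ℕ
  | 0 => 0
  | t + 1 => if p (t + 1) < p (am p t) then t + 1 else am p t

/-- the largest of `p 0, ..., p t` -/
noncomputable def mx (p : ℕ → ℝ) : ℕ → ℝ
  | 0 => p 0
  | t + 1 => max (mx p t) (p (t + 1))

theorem am_le (p : ℕ → ℝ) (t : ℕ) : am p t ≤ t := by
  induction t with
  | zero => simp [am]
  | succ t ih =>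
    rw [am]
    split_ifs
    · exact le_rfl
    · omega

theorem am_min (p : ℕ → ℝ) (t : ℕ) : ∀ i ≤ t, p (am p t) ≤ p i := by
  induction t with
  | zero =>
    intro i hi
    obtain rfl : i = 0 := by omega
    simp [am]
  | succ t ih =>
    intro i hi
    rw [am]
    split_ifs with h
    · rcases Nat.lt_or_ge t i with h1 | h1
      · obtain rfl : i = t + 1 := by omega
        exact le_rfl
      · exact h.le.trans (ih i h1)
    · rcases Nat.lt_or_ge t i with h1 | h1
      · obtain rfl : i = t + 1 := by omega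
        exact not_lt.1 h
      · exact ih i h1

theorem mx_le (p : ℕ → ℝ) (t : ℕ) : ∀ i ≤ t, p i ≤ mx p t := by
  induction t with
  | zero =>
    intro i hi
    obtain rfl : i = 0 := by omega
    simp [mx]
  | succ t ih =>
    intro i hi
    rw [mx]
    rcases Nat.lt_or_ge t i with h1 | h1
    · obtain rfl : i = t + 1 := by omega
      exact le_max_right _ _
    · exact (ih i h1).trans (le_max_left _ _)

theorem mx_exists (p : ℕ → ℝ) (t : ℕ) : ∃ i ≤ t, mx p t = p i := by
  induction t with
  | zero => exact ⟨0, le_rfl, rfl⟩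
  | succ t ih =>
    obtain ⟨i, hi, h⟩ := ih
    rw [mx]
    rcases le_total (mx p t) (p (t + 1)) with h1 | h1
    · exact ⟨t + 1, le_rfl, max_eq_right h1⟩
    · exact ⟨i, by omega, by rw [max_eq_left h1, h]⟩

theorem mx_mono (p : ℕ → ℝ) {s t : ℕ} (h : s ≤ t) : mx p s ≤ mx p t := by
  obtain ⟨i, hi, h1⟩ := mx_exists p s
  rw [h1]
  exact mx_le p t i (hi.trans h)

theorem mx_le_of (p : ℕ → ℝ) (t : ℕ) (B : ℝ) (h : ∀ i ≤ t, p i ≤ B) : mx p t ≤ B := by
  obtain ⟨i, hi, h1⟩ := mx_exists p t
  rw [h1]
  exact h i hi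

theorem am_congr (p q : ℕ → ℝ) (t : ℕ) (h : ∀ k ≤ t, p k = q k) : am p t = am q t := by
  induction t with
  | zero => rfl
  | succ t ih =>
    have h1 := ih fun k hk => h k (by omega)
    have h2 := am_le q t
    rw [am, am, h1, h (t + 1) le_rfl, h (am q t) (by omega)]

theorem mx_congr (p q : ℕ → ℝ) (t : ℕ) (h : ∀ k ≤ t, p k = q k) : mx p t = mx q t := by
  induction t with
  | zero => exact h 0 le_rfl
  | succ t ih => rw [mx, mx, ih fun k hk => h k (by omega), h (t + 1) le_rfl]

/-- the condition under which job `t` may be put on the smallest earlier job -/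
def Cond (y : ℝ) (p : ℕ → ℝ) (t : ℕ) : Prop :=
  1 ≤ t ∧ p (am p (t - 1)) + p t ≤ 2 * y * mx p t

/-- `t` is the first such time -/
def First (y : ℝ) (p : ℕ → ℝ) (t : ℕ) : Prop := Cond y p t ∧ ∀ s < t, ¬ Cond y p s

theorem cond_congr (y : ℝ) (p q : ℕ → ℝ) (t : ℕ) (h : ∀ k ≤ t, p k = q k) :
    Cond y p t ↔ Cond y q t := by
  have h1 := am_le q (t - 1)
  unfold Cond
  rw [am_congr p q (t - 1) fun k hk => h k (by omega), mx_congr p q t h, h t le_rfl,
    h (am q (t - 1)) (by omega)]

theorem first_congr (y : ℝ) (p q : ℕ → ℝ) (t : ℕ) (h : ∀ k ≤ t, p k = q k) :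
    First y p t ↔ First y q t := by
  unfold First
  rw [cond_congr y p q t h]
  refine and_congr_right fun _ => ?_
  exact forall_congr' fun s => imp_congr_right fun hs =>
    not_congr (cond_congr y p q s fun k hk => h k (by omega))

theorem First.unique {y : ℝ} {p : ℕ → ℝ} {s t : ℕ} (hs : First y p s) (ht : First y p t) :
    s = t := by
  rcases lt_trichotomy s t with h | h | h
  · exact absurd hs.1 (ht.2 s h)
  · exact h
  · exact absurd ht.1 (hs.2 t h)

theorem exists_first {y : ℝ} {p : ℕ → ℝ} {t : ℕ} (h : Cond y p t) :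
    ∃ s ≤ t, First y p s := by
  classical
  have hex : ∃ s, Cond y p s := ⟨t, h⟩
  exact ⟨Nat.find hex, Nat.find_min' hex h, Nat.find_spec hex,
    fun s hs => Nat.find_min hex hs⟩

open Classical in
/-- number of the machine of job `i` -/
noncomputable def pl (m : ℕ) (y : ℝ) (p : ℕ → ℝ) (i : ℕ) : ℕ :=
  if i < m then (if First y p i then am p (i - 1) else i)
  else if i = m then
    (if h : ∃ t, t < m ∧ First y p t then h.choose else am p (m - 1))
  else 0

theorem pl_congr (m : ℕ) (y : ℝ) (p q : ℕ → ℝ) (i : ℕ) (h : ∀ k ≤ i, p k = q k) :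
    pl m y p i = pl m y q i := by
  unfold pl
  split_ifs with h1 h2 h3 h3 h4 h5 h6 h7
  · exact am_congr p q _ fun k hk => h k (by omega)
  · exact absurd ((first_congr y p q i h).1 h2) h3
  · exact absurd ((first_congr y p q i h).2 h3) h2
  · rfl
  · have e1 := h5.choose_spec
    have e2 := h6.choose_spec
    have e3 := (first_congr y p q h5.choose fun k hk => h k (by omega)).1 e1.2
    exact e3.unique e2.2
  · obtain ⟨t, ht, ht2⟩ := h5
    exact absurd ⟨t, ht, (first_congr y p q t fun k hk => h k (by omega)).1 ht2⟩ h6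
  · obtain ⟨t, ht, ht2⟩ := h7
    exact absurd ⟨t, ht, (first_congr y p q t fun k hk => h k (by omega)).2 ht2⟩ h5
  · exact am_congr p q _ fun k hk => h k (by omega)
  · rfl

theorem pl_lt {m : ℕ} (hm : 0 < m) (y : ℝ) (p : ℕ → ℝ) (i : ℕ) : pl m y p i < m := by
  unfold pl
  split_ifs with h1 h2 h3 h4
  · have := am_le p (i - 1)
    omega
  · exact h1
  · exact h4.choose_spec.1
  · have := am_le p (m - 1)
    omega
  · exact hm

theorem pl_of_lt {m : ℕ} {y : ℝ} {p : ℕ → ℝ} {i : ℕ} (hi : i < m) (h : ¬ First y p i) :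
    pl m y p i = i := by
  unfold pl
  rw [if_pos hi, if_neg h]

theorem pl_first {m : ℕ} {y : ℝ} {p : ℕ → ℝ} {i : ℕ} (hi : i < m) (h : First y p i) :
    pl m y p i = am p (i - 1) := by
  unfold pl
  rw [if_pos hi, if_pos h]

theorem pl_last_merged {m : ℕ} {y : ℝ} {p : ℕ → ℝ} {t : ℕ} (ht : t < m) (h : First y p t) :
    pl m y p m = t := by
  unfold pl
  have hex : ∃ t, t < m ∧ First y p t := ⟨t, ht, h⟩
  rw [if_neg (lt_irrefl m), if_pos rfl, dif_pos hex]
  exact hex.choose_spec.2.unique h

theorem pl_last {m : ℕ} {y : ℝ} {p : ℕ → ℝ} (h : ∀ t < m, ¬ First y p t) :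
    pl m y p m = am p (m - 1) := by
  unfold pl
  have hex : ¬ ∃ t, t < m ∧ First y p t := fun ⟨t, ht, h1⟩ => h t ht h1
  rw [if_neg (lt_irrefl m), if_pos rfl, dif_neg hex]

/-- the threshold algorithm -/
noncomputable def thr (m : ℕ) (hm : 0 < m) (y : ℝ) : Online m where
  place i p := ⟨pl m y p i, pl_lt hm y p i⟩
  online i p q h := Fin.ext (pl_congr m y p q i h)

theorem thr_eq_iff {m : ℕ} (hm : 0 < m) (y : ℝ) (p : ℕ → ℝ) (i : ℕ) (j : Fin m) :
    (thr m hm y).place i p = j ↔ pl m y p i = j := by
  simp [thr, Fin.ext_iff]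

theorem mx_le_opt (hm : 0 < m) {p : ℕ → ℝ} (hp : ∀ i, 0 < p i) {n t : ℕ} (h : t < n) :
    mx p t ≤ opt m p n :=
  mx_le_of p t _ fun i hi => job_le_opt hm hp (by omega)

/-- cost when nothing was merged, at most `m` jobs -/
theorem cost_unmerged (hm : 0 < m) (y : ℝ) {p : ℕ → ℝ} (hp : ∀ i, 0 < p i)
    (h : ∀ t < m, ¬ First y p t) {n : ℕ} (hn : n ≤ m) (B : ℝ) (hB0 : 0 ≤ B)
    (hB : ∀ i < n, p i ≤ B) :
    (thr m hm y).cost p n ≤ B := by
  refine makespan_le hm _ _ _ _ fun j => ?_
  rcases Nat.lt_or_ge j n with hj | hj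
  · refine (load_le_sum _ hp n j {(j : ℕ)} fun i hi hij => ?_).trans ?_
    · rw [thr_eq_iff, pl_of_lt (by omega) (h i (by omega))] at hij
      simp [hij]
    · simpa using hB j hj
  · refine (load_le_sum _ hp n j ∅ fun i hi hij => ?_).trans ?_
    · rw [thr_eq_iff, pl_of_lt (by omega) (h i (by omega))] at hij
      omega
    · simpa using hB0

/-- cost when nothing was merged, `m + 1` jobs -/
theorem cost_unmerged_last (hm : 0 < m) (y : ℝ) {p : ℕ → ℝ} (hp : ∀ i, 0 < p i)
    (h : ∀ t < m, ¬ First y p t) (B : ℝ)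
    (hB : ∀ i < m, p i ≤ B) (hB2 : p (am p (m - 1)) + p m ≤ B) :
    (thr m hm y).cost p (m + 1) ≤ B := by
  refine makespan_le hm _ _ _ _ fun j => ?_
  by_cases hj : (j : ℕ) = am p (m - 1)
  · refine (load_le_sum _ hp _ j {(j : ℕ), m} fun i hi hij => ?_).trans ?_
    · rcases Nat.lt_or_ge i m with h1 | h1
      · rw [thr_eq_iff, pl_of_lt h1 (h i h1)] at hij
        simp [hij]
      · simp [show i = m by omega]
    · rw [Finset.sum_pair j.2.ne, hj]
      exact hB2
  · refine (load_le_sum _ hp _ j {(j : ℕ)} fun i hi hij => ?_).trans ?_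
    · rcases Nat.lt_or_ge i m with h1 | h1
      · rw [thr_eq_iff, pl_of_lt h1 (h i h1)] at hij
        simp [hij]
      · obtain rfl : i = m := by omega
        rw [thr_eq_iff, pl_last h] at hij
        exact absurd hij.symm hj
    · simpa using hB j j.2

/-- cost when jobs were merged at time `t` -/
theorem cost_merged (hm : 0 < m) (y : ℝ) {p : ℕ → ℝ} (hp : ∀ i, 0 < p i)
    {t : ℕ} (ht : t < m) (h : First y p t) {n : ℕ} (hn : n ≤ m + 1) (B : ℝ) (hB0 : 0 ≤ B)
    (hB : ∀ i < n, p i ≤ B) (hB2 : t < n → p (am p (t - 1)) + p t ≤ B) :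
    (thr m hm y).cost p n ≤ B := by
  have ht1 : 1 ≤ t := h.1.1
  have hat := am_le p (t - 1)
  have hpl : ∀ i < m, i ≠ t → pl m y p i = i := fun i hi hit =>
    pl_of_lt hi fun h1 => hit (h1.unique h)
  refine makespan_le hm _ _ _ _ fun j => ?_
  by_cases hjt : (j : ℕ) = t
  · -- machine `t`: only job `m`
    rcases Nat.lt_or_ge m n with hmn | hmn
    · refine (load_le_sum _ hp _ j {m} fun i hi hij => ?_).trans ?_
      · rw [thr_eq_iff] at hij
        rcases Nat.lt_or_ge i m with h1 | h1
        · exfalso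
          by_cases hit : i = t
          · rw [hit, pl_first ht h] at hij
            omega
          · rw [hpl i h1 hit] at hij
            omega
        · simp [show i = m by omega]
      · simpa using hB m hmn
    · refine (load_le_sum _ hp _ j ∅ fun i hi hij => ?_).trans ?_
      · rw [thr_eq_iff] at hij
        exfalso
        by_cases hit : i = t
        · rw [hit, pl_first ht h] at hij
          omega
        · rw [hpl i (by omega) hit] at hij
          omega
      · simpa using hB0
  · by_cases hja : (j : ℕ) = am p (t - 1)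
    · by_cases htn : t < n
      · refine (load_le_sum _ hp _ j {(j : ℕ), t} fun i hi hij => ?_).trans ?_
        · rw [thr_eq_iff] at hij
          rcases Nat.lt_or_ge i m with h1 | h1
          · by_cases hit : i = t
            · simp [hit]
            · rw [hpl i h1 hit] at hij
              simp [hij]
          · obtain rfl : i = m := by omega
            rw [pl_last_merged ht h] at hij
            omega
        · rw [Finset.sum_pair hjt, hja]
          exact hB2 htn
      · rcases Nat.lt_or_ge j n with hj | hj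
        · refine (load_le_sum _ hp _ j {(j : ℕ)} fun i hi hij => ?_).trans ?_
          · rw [thr_eq_iff, hpl i (by omega) (by omega)] at hij
            simp [hij]
          · simpa using hB j hj
        · refine (load_le_sum _ hp _ j ∅ fun i hi hij => ?_).trans ?_
          · rw [thr_eq_iff, hpl i (by omega) (by omega)] at hij
            omega
          · simpa using hB0
    · rcases Nat.lt_or_ge j n with hj | hj
      · refine (load_le_sum _ hp _ j {(j : ℕ)} fun i hi hij => ?_).trans ?_
        · rw [thr_eq_iff] at hij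
          rcases Nat.lt_or_ge i m with h1 | h1
          · by_cases hit : i = t
            · rw [hit, pl_first ht h] at hij
              exact absurd hij.symm hja
            · rw [hpl i h1 hit] at hij
              simp [hij]
          · obtain rfl : i = m := by omega
            rw [pl_last_merged ht h] at hij
            exact absurd hij.symm hjt
        · simpa using hB j hj
      · refine (load_le_sum _ hp _ j ∅ fun i hi hij => ?_).trans ?_
        · rw [thr_eq_iff] at hij
          rcases Nat.lt_or_ge i m with h1 | h1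
          · by_cases hit : i = t
            · rw [hit, pl_first ht h] at hij
              exact absurd hij.symm hja
            · rw [hpl i h1 hit] at hij
              omega
          · have := j.2
            omega
        · simpa using hB0

end Pool.Agent.Lib_MP_25a3c1
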