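import Pool.Agent.Lib_MP_25a3c1.Defs

namespace Pool.Agent.Lib_MP_25a3c1

open MeasureTheory

variable {m : ℕ}

theorem load_le_makespan (f : ℕ → Fin m) (p : ℕ → ℝ) (n : ℕ) (j : Fin m) :
    ∑ i ∈ Finset.range n, (if f i = j then p i else 0) ≤ makespan f p n :=
  le_ciSup (f := fun j : Fin m => ∑ i ∈ Finset.range n, if f i = j then p i else 0)
    (Set.finite_range _).bddAbove j

theorem makespan_le (hm : 0 < m) (f : ℕ → Fin m) (p : ℕ → ℝ) (n : ℕ) (B : ℝ)
    (h : ∀ j : Fin m, ∑ i ∈ Finset.range n, (if f i = j then p i else 0) ≤ B) :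
    makespan f p n ≤ B := by
  have : Nonempty (Fin m) := ⟨⟨0, hm⟩⟩
  exact ciSup_le h

theorem makespan_zero (hm : 0 < m) (f : ℕ → Fin m) (p : ℕ → ℝ) : makespan f p 0 = 0 := by
  have : Nonempty (Fin m) := ⟨⟨0, hm⟩⟩
  simp [makespan]

theorem load_nonneg (f : ℕ → Fin m) {p : ℕ → ℝ} (hp : ∀ i, 0 < p i) (n : ℕ) (j : Fin m) :
    0 ≤ ∑ i ∈ Finset.range n, (if f i = j then p i else 0) := by
  refine Finset.sum_nonneg fun i _ => ?_
  split_ifs
  · exact (hp i).le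
  · exact le_rfl

theorem makespan_nonneg (hm : 0 < m) (f : ℕ → Fin m) {p : ℕ → ℝ} (hp : ∀ i, 0 < p i) (n : ℕ) :
    0 ≤ makespan f p n :=
  (load_nonneg f hp n ⟨0, hm⟩).trans (load_le_makespan f p n _)

/-- one job -/
theorem job_le_makespan (f : ℕ → Fin m) {p : ℕ → ℝ} (hp : ∀ i, 0 < p i) {n i : ℕ}
    (hi : i < n) : p i ≤ makespan f p n := by
  refine le_trans ?_ (load_le_makespan f p n (f i))
  have h := Finset.single_le_sum (s := Finset.range n)
    (f := fun k => if f k = f i then p k else 0) (fun k _ => by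
      split_ifs
      · exact (hp k).le
      · exact le_rfl) (Finset.mem_range.2 hi)
  simpa using h

/-- two jobs on one machine -/
theorem pair_le_makespan (f : ℕ → Fin m) {p : ℕ → ℝ} (hp : ∀ i, 0 < p i) {n i k : ℕ}
    (hik : i ≠ k) (hi : i < n) (hk : k < n) (h : f i = f k) :
    p i + p k ≤ makespan f p n := by
  refine le_trans ?_ (load_le_makespan f p n (f i))
  have h1 : ∑ l ∈ ({i, k} : Finset ℕ), (if f l = f i then p l else 0)
      ≤ ∑ l ∈ Finset.range n, (if f l = f i then p l else 0) := by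
    refine Finset.sum_le_sum_of_subset_of_nonneg ?_ fun l _ _ => ?_
    · intro l hl
      simp only [Finset.mem_insert, Finset.mem_singleton] at hl
      rcases hl with rfl | rfl
      · exact Finset.mem_range.2 hi
      · exact Finset.mem_range.2 hk
    · split_ifs
      · exact (hp l).le
      · exact le_rfl
  rw [Finset.sum_pair hik] at h1
  simpa [h] using h1

theorem load_le_sum (f : ℕ → Fin m) {p : ℕ → ℝ} (hp : ∀ i, 0 < p i) (n : ℕ) (j : Fin m)
    (S : Finset ℕ) (h : ∀ i < n, f i = j → i ∈ S) :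
    ∑ i ∈ Finset.range n, (if f i = j then p i else 0) ≤ ∑ i ∈ S, p i := by
  rw [← Finset.sum_filter]
  refine Finset.sum_le_sum_of_subset_of_nonneg ?_ fun l _ _ => (hp l).le
  intro l hl
  rw [Finset.mem_filter, Finset.mem_range] at hl
  exact h l hl.1 hl.2

theorem bddBelow_makespan (hm : 0 < m) {p : ℕ → ℝ} (hp : ∀ i, 0 < p i) (n : ℕ) :
    BddBelow (Set.range fun f : ℕ → Fin m => makespan f p n) :=
  ⟨0, by rintro _ ⟨f, rfl⟩; exact makespan_nonneg hm f hp n⟩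

theorem opt_le (hm : 0 < m) {p : ℕ → ℝ} (hp : ∀ i, 0 < p i) (n : ℕ) (f : ℕ → Fin m) :
    opt m p n ≤ makespan f p n :=
  ciInf_le (bddBelow_makespan hm hp n) f

theorem le_opt (hm : 0 < m) (p : ℕ → ℝ) (n : ℕ) (B : ℝ)
    (h : ∀ f : ℕ → Fin m, B ≤ makespan f p n) : B ≤ opt m p n := by
  have : Nonempty (ℕ → Fin m) := ⟨fun _ => ⟨0, hm⟩⟩
  exact le_ciInf h

theorem job_le_opt (hm : 0 < m) {p : ℕ → ℝ} (hp : ∀ i, 0 < p i) {n i : ℕ} (hi : i < n) :
    p i ≤ opt m p n :=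
  le_opt hm p n _ fun f => job_le_makespan f hp hi

theorem opt_zero (hm : 0 < m) (p : ℕ → ℝ) : opt m p 0 = 0 := by
  have : Nonempty (ℕ → Fin m) := ⟨fun _ => ⟨0, hm⟩⟩
  simp [opt, makespan_zero hm]

theorem opt_nonneg (hm : 0 < m) {p : ℕ → ℝ} (hp : ∀ i, 0 < p i) (n : ℕ) : 0 ≤ opt m p n :=
  le_opt hm p n _ fun f => makespan_nonneg hm f hp n

/-- pigeonhole -/
theorem exists_pair (f : ℕ → Fin m) : ∃ i k, i < k ∧ k ≤ m ∧ f i = f k := by
  have h := Fintype.exists_ne_map_eq_of_card_lt (fun i : Fin (m + 1) => f i) (by simp)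
  obtain ⟨x, y, hxy, hf⟩ := h
  rcases lt_or_gt_of_ne hxy with h1 | h1
  · exact ⟨x, y, h1, Nat.lt_succ_iff.1 y.2, hf⟩
  · exact ⟨y, x, h1, Nat.lt_succ_iff.1 x.2, hf.symm⟩

theorem pair_le_opt (hm : 0 < m) {p : ℕ → ℝ} (hp : ∀ i, 0 < p i) (B : ℝ)
    (h : ∀ i k, i < k → k ≤ m → B ≤ p i + p k) : B ≤ opt m p (m + 1) := by
  refine le_opt hm p _ _ fun f => ?_
  obtain ⟨i, k, h1, h2, h3⟩ := exists_pair f
  exact (h i k h1 h2).trans
    (pair_le_makespan f hp h1.ne (by omega) (by omega) h3)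

end Pool.Agent.Lib_MP_25a3c1
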