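import Mathlib

/-!
Online makespan scheduling on `m` identical machines: definitions.
-/

namespace Pool.Agent.Lib_MP_25a3c1

open MeasureTheory

/-- The makespan when the jobs `p 0, ..., p (n - 1)` are assigned to the machines by `f`:
the largest load. -/
noncomputable def makespan {m : ℕ} (f : ℕ → Fin m) (p : ℕ → ℝ) (n : ℕ) : ℝ :=
  ⨆ j : Fin m, ∑ i ∈ Finset.range n, if f i = j then p i else 0

/-- The smallest makespan of an assignment of the jobs `p 0, ..., p (n - 1)` to `m` machines. -/
noncomputable def opt (m : ℕ) (p : ℕ → ℝ) (n : ℕ) : ℝ :=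
  ⨅ f : ℕ → Fin m, makespan f p n

/-- A deterministic online algorithm for `m` machines. Job `i` of the job sequence `p`
(`i = 0, 1, ...`) is put on machine `place i p`; this choice depends only on the
running times of the jobs `0, ..., i`. -/
structure Online (m : ℕ) where
  place : ℕ → (ℕ → ℝ) → Fin m
  online : ∀ (i : ℕ) (p q : ℕ → ℝ), (∀ k ≤ i, p k = q k) → place i p = place i q

/-- The makespan of a deterministic online algorithm on the jobs `p 0, ..., p (n - 1)`. -/
noncomputable def Online.cost {m : ℕ} (A : Online m) (p : ℕ → ℝ) (n : ℕ) : ℝ :=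
  makespan (fun i => A.place i p) p n

/-- A randomized online algorithm: a random deterministic online algorithm. -/
structure Randomized (m : ℕ) where
  Ω : Type
  mΩ : MeasurableSpace Ω
  μ : Measure Ω
  prob : IsProbabilityMeasure μ
  alg : Ω → Online m
  meas : ∀ (i : ℕ) (p : ℕ → ℝ) (j : Fin m), MeasurableSet {ω | (alg ω).place i p = j}

/-- The expected makespan of a randomized online algorithm on the jobs
`p 0, ..., p (n - 1)`. -/
noncomputable def Randomized.cost {m : ℕ} (A : Randomized m) (p : ℕ → ℝ) (n : ℕ) : ℝ :=
  letI := A.mΩ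
  ∫ ω, (A.alg ω).cost p n ∂A.μ

/-- The (expected) makespan `cost p n` is at most `c` times the optimum for every sequence
of at most `N` jobs with positive running times. -/
def Competitive (m N : ℕ) (cost : (ℕ → ℝ) → ℕ → ℝ) (c : ℝ) : Prop :=
  ∀ (p : ℕ → ℝ) (n : ℕ), (∀ i, 0 < p i) → n ≤ N → cost p n ≤ c * opt m p n

/-- The best competitive ratio of deterministic algorithms on `m` machines for
sequences of at most `N` jobs. -/
noncomputable def ratioDet (m N : ℕ) : ℝ :=
  sInf {c : ℝ | ∃ A : Online m, Competitive m N A.cost c}

/-- The best competitive ratio of randomized algorithms on `m` machines for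
sequences of at most `N` jobs. -/
noncomputable def ratioRand (m N : ℕ) : ℝ :=
  sInf {c : ℝ | ∃ A : Randomized m, Competitive m N A.cost c}

end Pool.Agent.Lib_MP_25a3c1
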