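import Pool.Agent.Lib_MP_25a3c1.Basic

namespace Pool.Agent.Lib_MP_25a3c1

open MeasureTheory

variable {m : ℕ}

theorem cost_le_total (hm : 0 < m) (A : Online m) {p : ℕ → ℝ} (hp : ∀ i, 0 < p i) (n : ℕ) :
    A.cost p n ≤ ∑ i ∈ Finset.range n, p i :=
  makespan_le hm _ _ _ _ fun j =>
    load_le_sum _ hp n j (Finset.range n) fun i hi _ => Finset.mem_range.2 hi

theorem integrable_cost (hm : 0 < m) (A : Randomized m) {p : ℕ → ℝ} (hp : ∀ i, 0 < p i)
    (n : ℕ) : @Integrable _ _ _ _ A.mΩ (fun ω => (A.alg ω).cost p n) A.μ := by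
  letI := A.mΩ
  have := A.prob
  have h1 : Measurable fun ω => fun i : Fin n => (A.alg ω).place i p := by
    refine measurable_pi_iff.2 fun i => measurable_to_countable' fun j => ?_
    exact A.meas i p j
  let g : (Fin n → Fin m) → ℝ := fun f => ⨆ j : Fin m, ∑ i : Fin n, if f i = j then p i else 0
  have h2 : Measurable g := measurable_of_countable g
  have h3 : (fun ω => (A.alg ω).cost p n) = g ∘ fun ω => fun i : Fin n =>
      (A.alg ω).place i p := by
    funext ω
    simp only [Online.cost, makespan, Function.comp, g]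
    congr 1
    funext j
    rw [Finset.sum_range]
  refine Integrable.of_bound (C := ∑ i ∈ Finset.range n, p i) ?_ ?_
  · rw [h3]
    exact (h2.comp h1).aestronglyMeasurable
  · refine Filter.Eventually.of_forall fun ω => ?_
    have h4 : 0 ≤ (A.alg ω).cost p n := makespan_nonneg hm _ hp n
    rw [Real.norm_eq_abs, abs_of_nonneg h4]
    exact cost_le_total hm _ hp n

theorem lower_of_family (hm : 0 < m) {ι : Type} (s : Finset ι) (a b : ι → ℝ)
    (P : ι → ℕ → ℝ) (N : ι → ℕ) (M : ℕ) (L : ℝ)
    (ha : ∀ i ∈ s, 0 ≤ a i) (hb : ∀ i ∈ s, 0 < b i) (hs : ∑ i ∈ s, a i = 1)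
    (hP : ∀ i ∈ s, ∀ t, 0 < P i t) (hN : ∀ i ∈ s, N i ≤ M)
    (hopt : ∀ i ∈ s, opt m (P i) (N i) ≤ b i)
    (h : ∀ A : Online m, L ≤ ∑ i ∈ s, a i * (A.cost (P i) (N i) / b i))
    (A : Randomized m) (c : ℝ) (hc0 : 0 ≤ c) (hc : Competitive m M A.cost c) : L ≤ c := by
  letI := A.mΩ
  have := A.prob
  have h1 : L ≤ ∫ ω, ∑ i ∈ s, a i * ((A.alg ω).cost (P i) (N i) / b i) ∂A.μ := by
    have h2 : ∫ _ω, L ∂A.μ ≤ ∫ ω, ∑ i ∈ s, a i * ((A.alg ω).cost (P i) (N i) / b i) ∂A.μ := by
      refine integral_mono (integrable_const _) ?_ fun ω => h (A.alg ω)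
      exact integrable_finsetSum _ fun i hi =>
        ((integrable_cost hm A (hP i hi) (N i)).div_const _).const_mul _
    simpa using h2
  rw [integral_finsetSum _ fun i hi =>
      ((integrable_cost hm A (hP i hi) (N i)).div_const _).const_mul _] at h1
  refine h1.trans ?_
  have h3 : ∑ i ∈ s, ∫ ω, a i * ((A.alg ω).cost (P i) (N i) / b i) ∂A.μ ≤ ∑ i ∈ s, a i * c := by
    refine Finset.sum_le_sum fun i hi => ?_
    rw [integral_const_mul, integral_div]
    refine mul_le_mul_of_nonneg_left ?_ (ha i hi)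
    rw [div_le_iff₀ (hb i hi)]
    exact (hc (P i) (N i) (hP i hi) (hN i hi)).trans
      (mul_le_mul_of_nonneg_left (hopt i hi) hc0)
  refine h3.trans (le_of_eq ?_)
  rw [← Finset.sum_mul, hs, one_mul]

theorem competitive_pos_det (hm : 0 < m) {N : ℕ} (hN : 1 ≤ N) (A : Online m) (c : ℝ)
    (hc : Competitive m N A.cost c) : 0 < c := by
  have h1 := hc (fun _ => 1) 1 (fun _ => one_pos) hN
  have h2 : (1 : ℝ) ≤ A.cost (fun _ => 1) 1 :=
    job_le_makespan (p := fun _ => 1) _ (fun _ => one_pos) (i := 0) one_pos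
  have h3 := opt_nonneg hm (p := fun _ => 1) (fun _ => one_pos) 1
  by_contra h4
  have h5 : c * opt m (fun _ => 1) 1 ≤ 0 := mul_nonpos_of_nonpos_of_nonneg (not_lt.1 h4) h3
  linarith

theorem competitive_pos_rand (hm : 0 < m) {N : ℕ} (hN : 1 ≤ N) (A : Randomized m) (c : ℝ)
    (hc : Competitive m N A.cost c) : 0 < c := by
  have h1 := hc (fun _ => 1) 1 (fun _ => one_pos) hN
  have h2 : (1 : ℝ) ≤ A.cost (fun _ => 1) 1 := by
    letI := A.mΩ
    have := A.prob
    have h2 : ∫ _ω, (1 : ℝ) ∂A.μ ≤ ∫ ω, (A.alg ω).cost (fun _ => 1) 1 ∂A.μ := by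
      refine integral_mono (integrable_const _)
        (integrable_cost hm A (p := fun _ => 1) (fun _ => one_pos) 1) fun ω => ?_
      exact job_le_makespan (p := fun _ => 1) _ (fun _ => one_pos) (i := 0) one_pos
    have h5 : (1 : ℝ) ≤ ∫ ω, (A.alg ω).cost (fun _ => 1) 1 ∂A.μ := by simpa using h2
    exact h5
  have h3 := opt_nonneg hm (p := fun _ => 1) (fun _ => one_pos) 1
  by_contra h4
  have h5 : c * opt m (fun _ => 1) 1 ≤ 0 := mul_nonpos_of_nonpos_of_nonneg (not_lt.1 h4) h3
  linarith

/-! ### `m` jobs of size one and a job of size two -/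

/-- the sequence `1, ..., 1, 2` -/
noncomputable def W (m : ℕ) (t : ℕ) : ℝ := if t < m then 1 else 2

theorem W_pos (m t : ℕ) : 0 < W m t := by
  unfold W
  split_ifs <;> norm_num

/-- the assignment of job `t` to machine `min t (m-1)` -/
def spread (m : ℕ) (hm : 0 < m) (t : ℕ) : Fin m := ⟨min t (m - 1), by omega⟩

theorem opt_ones (hm : 0 < m) : opt m (fun _ => 1) m ≤ 1 := by
  refine (opt_le hm (fun _ => one_pos) m (spread m hm)).trans ?_
  refine makespan_le hm _ _ _ _ fun j => ?_
  refine (load_le_sum _ (fun _ => one_pos) m j {(j : ℕ)} fun i hi hij => ?_).trans (by simp)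
  have : min i (m - 1) = j := congrArg Fin.val hij
  simp only [Finset.mem_singleton]
  omega

/-- the assignment with jobs `r` and `r + 1` together -/
def fold (m : ℕ) (hm : 0 < m) (r t : ℕ) : Fin m :=
  ⟨min (if t ≤ r then t else t - 1) (m - 1), by omega⟩

theorem opt_fold (hm : 0 < m) {p : ℕ → ℝ} (hp : ∀ i, 0 < p i) (r : ℕ) (hr : r < m) (B : ℝ)
    (hB : ∀ i ≤ m, p i ≤ B) (hB2 : p r + p (r + 1) ≤ B) : opt m p (m + 1) ≤ B := by
  refine (opt_le hm hp (m + 1) (fold m hm r)).trans ?_
  refine makespan_le hm _ _ _ _ fun j => ?_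
  rcases lt_trichotomy (j : ℕ) r with h | h | h
  · refine (load_le_sum _ hp _ j {(j : ℕ)} fun i hi hij => ?_).trans ?_
    · have h1 : min (if i ≤ r then i else i - 1) (m - 1) = j := congrArg Fin.val hij
      simp only [Finset.mem_singleton]
      split_ifs at h1 <;> omega
    · simpa using hB j (by omega)
  · refine (load_le_sum _ hp _ j {r, r + 1} fun i hi hij => ?_).trans ?_
    · have h1 : min (if i ≤ r then i else i - 1) (m - 1) = j := congrArg Fin.val hij
      simp only [Finset.mem_singleton, Finset.mem_insert]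
      split_ifs at h1 <;> omega
    · rw [Finset.sum_pair (by omega)]
      exact hB2
  · refine (load_le_sum _ hp _ j {(j : ℕ) + 1} fun i hi hij => ?_).trans ?_
    · have h1 : min (if i ≤ r then i else i - 1) (m - 1) = j := congrArg Fin.val hij
      simp only [Finset.mem_singleton]
      have := j.2
      split_ifs at h1 <;> omega
    · simpa using hB (j + 1) (by omega)

theorem opt_W (hm : 2 ≤ m) : opt m (W m) (m + 1) ≤ 2 := by
  refine opt_fold (by omega) (W_pos m) 0 (by omega) 2 (fun i _ => ?_) ?_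
  · unfold W
    split_ifs <;> norm_num
  · unfold W
    rw [if_pos (by omega), if_pos (by omega)]
    norm_num

theorem W_cases (hm : 2 ≤ m) (A : Online m) :
    (1 ≤ A.cost (fun _ => 1) m ∧ 3 ≤ A.cost (W m) (m + 1)) ∨
    (2 ≤ A.cost (fun _ => 1) m ∧ 2 ≤ A.cost (W m) (m + 1)) := by
  have hpl : ∀ t < m, A.place t (W m) = A.place t (fun _ => 1) := fun t ht =>
    A.online t _ _ fun k hk => if_pos (by omega)
  by_cases h : ∃ s t, s < t ∧ t < m ∧ A.place s (fun _ => 1) = A.place t (fun _ => 1)
  · right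
    obtain ⟨s, t, h1, h2, h3⟩ := h
    constructor
    · have := pair_le_makespan (fun i => A.place i (fun _ => 1)) (p := fun _ => 1)
        (fun _ => one_pos) (n := m) h1.ne (by omega) (by omega) h3
      unfold Online.cost
      linarith
    · have h4 := job_le_makespan (fun i => A.place i (W m)) (W_pos m) (Nat.lt_succ_self m)
      unfold Online.cost
      refine le_trans ?_ h4
      simp [W]
  · left
    push Not at h
    constructor
    · exact job_le_makespan (p := fun _ => 1) _ (fun _ => one_pos) (i := 0) (by omega)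
    · obtain ⟨i, k, h1, h2, h3⟩ := exists_pair fun i => A.place i (W m)
      have hk : k = m := by
        by_contra hne
        refine h i k h1 (by omega) ?_
        rw [← hpl i (by omega), ← hpl k (by omega)]
        exact h3
      subst hk
      have h4 := pair_le_makespan (fun i => A.place i (W k)) (W_pos k) (n := k + 1)
        h1.ne (by omega) (by omega) h3
      unfold Online.cost
      refine le_trans ?_ h4
      simp only [W, if_pos h1, lt_irrefl, if_false]
      norm_num

theorem det_lower (hm : 2 ≤ m) (A : Online m) (c : ℝ) (hc : Competitive m (m + 1) A.cost c) :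
    3 / 2 ≤ c := by
  have hm0 : 0 < m := by omega
  have hc0 := competitive_pos_det hm0 (by omega) A c hc
  have h1 := hc (fun _ => 1) m (fun _ => one_pos) (by omega)
  have h2 := hc (W m) (m + 1) (W_pos m) le_rfl
  have h3 := mul_le_mul_of_nonneg_left (opt_ones hm0) hc0.le
  have h4 := mul_le_mul_of_nonneg_left (opt_W hm) hc0.le
  rcases W_cases hm A with ⟨h5, h6⟩ | ⟨h5, h6⟩
  · linarith
  · linarith

theorem rand_lower_W (hm : 2 ≤ m) (A : Randomized m) (c : ℝ)
    (hc : Competitive m (m + 1) A.cost c) : 4 / 3 ≤ c := by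
  have hm0 : 0 < m := by omega
  have hc0 := competitive_pos_rand hm0 (by omega) A c hc
  refine lower_of_family hm0 (Finset.univ : Finset Bool)
    (fun i => if i then 1 / 3 else 2 / 3) (fun i => if i then 1 else 2)
    (fun i => if i then (fun _ => 1) else W m) (fun i => if i then m else m + 1) (m + 1)
    (4 / 3) ?_ ?_ ?_ ?_ ?_ ?_ ?_ A c hc0.le hc
  · rintro (_ | _) _ <;> norm_num
  · rintro (_ | _) _ <;> norm_num
  · simp; norm_num
  · rintro (_ | _) _ t
    · exact W_pos m t
    · exact one_pos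
  · rintro (_ | _) _
    · exact le_rfl
    · exact Nat.le_succ m
  · rintro (_ | _) _
    · exact opt_W hm
    · exact opt_ones hm0
  · intro A
    simp only [Fintype.sum_bool, if_true, Bool.false_eq_true, if_false]
    rcases W_cases hm A with ⟨h5, h6⟩ | ⟨h5, h6⟩
    · linarith
    · linarith

end Pool.Agent.Lib_MP_25a3c1
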