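import Pool.Agent.Lib_MP_25a3c1.Lower

namespace Pool.Agent.Lib_MP_25a3c1

open MeasureTheory

variable {m : ℕ}

/-! ### the inequality -/

theorem cube_sq {u v : ℝ} (hv : 0 < v) (huv : v ≤ u) :
    3 / 2 * (u ^ 2 - v ^ 2) ≤ (u ^ 3 - v ^ 3) / v := by
  rw [le_div_iff₀ hv]
  nlinarith [mul_nonneg (sub_nonneg.2 huv) (mul_nonneg (sub_nonneg.2 huv) hv.le),
    mul_nonneg (sub_nonneg.2 huv) (mul_nonneg (sub_nonneg.2 huv) (hv.le.trans huv))]

theorem cube_mono {u v : ℝ} (hv : 0 < v) (huv : v ≤ u) : 0 ≤ u ^ 3 - v ^ 3 :=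
  sub_nonneg.2 (pow_le_pow_left₀ hv.le huv 3)

theorem ineq_none (x R : ℕ → ℝ) (k : ℕ) (Rs : ℝ) (h0 : x 0 = 1) (hk : x k = 1 / 2)
    (hpos : ∀ i, 0 < x i) (hanti : ∀ i, x (i + 1) ≤ x i)
    (hR : ∀ i ≤ k, 3 / 2 ≤ R i) (hs : 1 ≤ Rs) :
    24 / 17 ≤ ∑ l ∈ Finset.range k, 16 / 17 * (x l ^ 3 - x (l + 1) ^ 3) * R (l + 1)
      + 3 / 17 * Rs := by
  have h1 : ∀ n ≤ k, 24 / 17 * (1 - x n ^ 3) ≤
      ∑ l ∈ Finset.range n, 16 / 17 * (x l ^ 3 - x (l + 1) ^ 3) * R (l + 1) := by
    intro n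
    induction n with
    | zero => intro _; simp [h0]
    | succ n ih =>
      intro hn
      rw [Finset.sum_range_succ]
      have h2 := ih (by omega)
      have h3 := mul_le_mul_of_nonneg_left (hR (n + 1) hn) (cube_mono (hpos (n + 1)) (hanti n))
      linarith
  have h2 := h1 k le_rfl
  rw [hk] at h2
  norm_num at h2
  linarith

theorem ineq_some (x R : ℕ → ℝ) (k j : ℕ) (Rs δ : ℝ) (h0 : x 0 = 1) (hk : x k = 1 / 2)
    (hpos : ∀ i, 0 < x i) (hanti : ∀ i, x (i + 1) ≤ x i) (hδ : ∀ i, x i - x (i + 1) ≤ δ)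
    (hδ0 : 0 ≤ δ) (hj : j ≤ k)
    (hR1 : ∀ i < j, 3 / 2 ≤ R i) (hR2 : ∀ i ≤ k, j ≤ i → x j / x i ≤ R i)
    (hs : 2 * x j ≤ Rs) :
    24 / 17 * (1 - δ) ≤ ∑ l ∈ Finset.range k, 16 / 17 * (x l ^ 3 - x (l + 1) ^ 3) * R (l + 1)
      + 3 / 17 * Rs := by
  have hle1 : ∀ i, x i ≤ 1 := by
    intro i
    induction i with
    | zero => exact h0.le
    | succ i ih => exact (hanti i).trans ih
  have h1 : ∀ n ≤ j - 1, 24 / 17 * (1 - x n ^ 3) ≤
      ∑ l ∈ Finset.range n, 16 / 17 * (x l ^ 3 - x (l + 1) ^ 3) * R (l + 1) := by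
    intro n
    induction n with
    | zero => intro _; simp [h0]
    | succ n ih =>
      intro hn
      rw [Finset.sum_range_succ]
      have h2 := ih (by omega)
      have h3 := mul_le_mul_of_nonneg_left (hR1 (n + 1) (by omega))
        (cube_mono (hpos (n + 1)) (hanti n))
      linarith
  have h2 : ∀ n, j - 1 ≤ n → n ≤ k →
      24 / 17 * (1 - x (j - 1) ^ 3 + x j * (x (j - 1) ^ 2 - x n ^ 2)) ≤
      ∑ l ∈ Finset.range n, 16 / 17 * (x l ^ 3 - x (l + 1) ^ 3) * R (l + 1) := by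
    intro n hn
    induction n, hn using Nat.le_induction with
    | base =>
      intro _
      have := h1 (j - 1) le_rfl
      rw [sub_self, mul_zero, add_zero]
      exact this
    | succ n hn ih =>
      intro hnk
      rw [Finset.sum_range_succ]
      have h3 := ih (by omega)
      have h4 := mul_le_mul_of_nonneg_left (hR2 (n + 1) hnk (by omega))
        (cube_mono (hpos (n + 1)) (hanti n))
      have h5 := mul_le_mul_of_nonneg_left (cube_sq (hpos (n + 1)) (hanti n)) (hpos j).le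
      have h6 : (x n ^ 3 - x (n + 1) ^ 3) * (x j / x (n + 1))
          = x j * ((x n ^ 3 - x (n + 1) ^ 3) / x (n + 1)) := by ring
      rw [h6] at h4
      nlinarith
  have h3 := h2 k (by omega) le_rfl
  have h4 : x (j - 1) - x j ≤ δ := by
    rcases Nat.eq_zero_or_pos j with hj0 | hj0
    · subst hj0; simpa using hδ0
    · obtain ⟨i, rfl⟩ : ∃ i, j = i + 1 := ⟨j - 1, by omega⟩
      exact hδ i
  have h5 : x (j - 1) ^ 2 * (x (j - 1) - x j) ≤ δ := by
    have h6 : x (j - 1) ^ 2 ≤ 1 := pow_le_one₀ (hpos _).le (hle1 _)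
    calc x (j - 1) ^ 2 * (x (j - 1) - x j) ≤ x (j - 1) ^ 2 * δ :=
          mul_le_mul_of_nonneg_left h4 (sq_nonneg _)
      _ ≤ 1 * δ := mul_le_mul_of_nonneg_right h6 hδ0
      _ = δ := one_mul δ
  rw [hk] at h3
  nlinarith

/-! ### the job sequences -/

/-- the sizes -/
noncomputable def xs (k i : ℕ) : ℝ := 1 - (min i k : ℕ) / (2 * k : ℝ)

theorem xs_zero (k : ℕ) : xs k 0 = 1 := by simp [xs]

theorem xs_last {k : ℕ} (hk : 1 ≤ k) : xs k k = 1 / 2 := by
  have : (0 : ℝ) < k := by exact_mod_cast hk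
  unfold xs
  rw [min_self]
  field_simp
  norm_num

theorem xs_anti {k : ℕ} {i l : ℕ} (h : i ≤ l) : xs k l ≤ xs k i := by
  unfold xs
  have h1 : ((min i k : ℕ) : ℝ) ≤ ((min l k : ℕ) : ℝ) := by
    exact_mod_cast min_le_min_right k h
  have h2 : (0 : ℝ) ≤ 2 * k := by positivity
  have := div_le_div_of_nonneg_right h1 h2
  linarith

theorem xs_ge {k : ℕ} (hk : 1 ≤ k) (i : ℕ) : 1 / 2 ≤ xs k i := by
  rw [← xs_last hk]
  unfold xs
  have h1 : ((min i k : ℕ) : ℝ) ≤ ((min k k : ℕ) : ℝ) := by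
    rw [min_self]
    exact_mod_cast min_le_right i k
  have h2 : (0 : ℝ) ≤ 2 * k := by positivity
  have := div_le_div_of_nonneg_right h1 h2
  linarith

theorem xs_pos {k : ℕ} (hk : 1 ≤ k) (i : ℕ) : 0 < xs k i := by
  have := xs_ge hk i
  linarith

theorem xs_le_one (k i : ℕ) : xs k i ≤ 1 := by
  rw [← xs_zero k]
  exact xs_anti (Nat.zero_le i)

theorem xs_gap {k : ℕ} (hk : 1 ≤ k) (i : ℕ) : xs k i - xs k (i + 1) ≤ 1 / (2 * k) := by
  have h0 : (0 : ℝ) < 2 * k := by
    have : (0 : ℝ) < k := by exact_mod_cast hk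
    linarith
  unfold xs
  have h1 : ((min (i + 1) k : ℕ) : ℝ) ≤ ((min i k : ℕ) : ℝ) + 1 := by
    have : min (i + 1) k ≤ min i k + 1 := by omega
    exact_mod_cast this
  have h2 := div_le_div_of_nonneg_right h1 h0.le
  rw [add_div] at h2
  linarith

/-- pairs of jobs of decreasing size -/
noncomputable def Sstar (k t : ℕ) : ℝ := xs k (t / 2)

/-- pairs of jobs of decreasing size, up to level `i`, and then jobs of twice the last size -/
noncomputable def Sx (k i t : ℕ) : ℝ := if t < 2 * (i + 1) then xs k (t / 2) else 2 * xs k i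

theorem Sstar_pos {k : ℕ} (hk : 1 ≤ k) (t : ℕ) : 0 < Sstar k t := xs_pos hk _

theorem Sx_pos {k : ℕ} (hk : 1 ≤ k) (i t : ℕ) : 0 < Sx k i t := by
  unfold Sx
  have := xs_pos hk i
  split_ifs
  · exact xs_pos hk _
  · linarith

theorem place_eq (A : Online m) {k i t : ℕ} (ht : t < 2 * (i + 1)) :
    A.place t (Sx k i) = A.place t (Sstar k) :=
  A.online t _ _ fun s hs => by
    unfold Sx Sstar
    rw [if_pos (by omega)]

theorem opt_Sstar (hm : 0 < m) {k : ℕ} (hk : 1 ≤ k) (hkm : 2 * k + 2 ≤ m) :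
    opt m (Sstar k) (2 * k + 2) ≤ 1 := by
  refine (opt_le hm (Sstar_pos hk) _ (spread m hm)).trans ?_
  refine makespan_le hm _ _ _ _ fun j => ?_
  refine (load_le_sum _ (Sstar_pos hk) _ j {(j : ℕ)} fun i hi hij => ?_).trans ?_
  · have : min i (m - 1) = j := congrArg Fin.val hij
    simp only [Finset.mem_singleton]
    omega
  · rw [Finset.sum_singleton]
    exact xs_le_one _ _

theorem opt_Sx {k i : ℕ} (hk : 1 ≤ k) (hkm : 2 * k + 2 ≤ m) (hi : i ≤ k) :
    opt m (Sx k i) (m + 1) ≤ 2 * xs k i := by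
  have h1 := xs_ge hk i
  refine opt_fold (by omega) (Sx_pos hk i) (2 * i) (by omega) _ (fun t _ => ?_) ?_
  · unfold Sx
    split_ifs
    · have := xs_le_one k (t / 2)
      linarith
    · exact le_rfl
  · unfold Sx
    rw [if_pos (by omega), if_pos (by omega), show 2 * i / 2 = i by omega,
      show (2 * i + 1) / 2 = i by omega]
    linarith

/-- no two of the first `2 (i + 1)` jobs together -/
theorem cost_Sx_sep (A : Online m) {k i : ℕ} (hk : 1 ≤ k)
    (h : ∀ s t, s < t → t < 2 * (i + 1) → A.place s (Sstar k) ≠ A.place t (Sstar k)) :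
    3 * xs k i ≤ A.cost (Sx k i) (m + 1) := by
  obtain ⟨a, b, h1, h2, h3⟩ := exists_pair fun t => A.place t (Sx k i)
  have hb : 2 * (i + 1) ≤ b := by
    by_contra hb
    refine h a b h1 (by omega) ?_
    rw [← place_eq (i := i) A (by omega), ← place_eq (i := i) A (by omega)]
    exact h3
  have h4 := pair_le_makespan (fun t => A.place t (Sx k i)) (Sx_pos hk i) (n := m + 1)
    h1.ne (by omega) (by omega) h3
  unfold Online.cost
  refine le_trans ?_ h4
  have h5 : Sx k i b = 2 * xs k i := if_neg (by omega)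
  have h6 : xs k i ≤ Sx k i a := by
    unfold Sx
    split_ifs with h7
    · exact xs_anti (by omega)
    · have := xs_pos hk i
      linarith
  rw [h5]
  linarith

theorem cost_Sx_coll (A : Online m) {k i s t : ℕ} (hk : 1 ≤ k) (hkm : 2 * k + 2 ≤ m)
    (hi : i ≤ k) (hst : s < t) (ht : t < 2 * (i + 1))
    (h : A.place s (Sstar k) = A.place t (Sstar k)) :
    2 * xs k (t / 2) ≤ A.cost (Sx k i) (m + 1) := by
  have h4 := pair_le_makespan (fun t => A.place t (Sx k i)) (Sx_pos hk i) (n := m + 1)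
    hst.ne (by omega) (by omega) (by
      show A.place s (Sx k i) = A.place t (Sx k i)
      rw [place_eq (i := i) A (by omega), place_eq (i := i) A ht]
      exact h)
  unfold Online.cost
  refine le_trans ?_ h4
  unfold Sx
  rw [if_pos (by omega), if_pos ht]
  have := xs_anti (k := k) (show s / 2 ≤ t / 2 by omega)
  linarith

theorem cost_Sstar_coll (A : Online m) {k s t : ℕ} (hk : 1 ≤ k)
    (hst : s < t) (ht : t < 2 * k + 2)
    (h : A.place s (Sstar k) = A.place t (Sstar k)) :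
    2 * xs k (t / 2) ≤ A.cost (Sstar k) (2 * k + 2) := by
  have h4 := pair_le_makespan (fun t => A.place t (Sstar k)) (Sstar_pos hk) (n := 2 * k + 2)
    hst.ne (by omega) (by omega) h
  unfold Online.cost
  refine le_trans ?_ h4
  unfold Sstar
  have := xs_anti (k := k) (show s / 2 ≤ t / 2 by omega)
  linarith

theorem one_le_cost_Sstar (A : Online m) {k : ℕ} (hk : 1 ≤ k) :
    1 ≤ A.cost (Sstar k) (2 * k + 2) := by
  have h := job_le_makespan (fun t => A.place t (Sstar k)) (Sstar_pos hk) (n := 2 * k + 2)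
    (i := 0) (by omega)
  have h2 : Sstar k 0 = 1 := xs_zero k
  rw [h2] at h
  exact h

theorem main_ineq (A : Online m) {k : ℕ} (hk : 1 ≤ k) (hkm : 2 * k + 2 ≤ m) :
    24 / 17 * (1 - 1 / (2 * k : ℝ)) ≤
      ∑ l ∈ Finset.range k, 16 / 17 * (xs k l ^ 3 - xs k (l + 1) ^ 3) *
        (A.cost (Sx k (l + 1)) (m + 1) / (2 * xs k (l + 1)))
      + 3 / 17 * A.cost (Sstar k) (2 * k + 2) := by
  have hk0 : (0 : ℝ) < 2 * k := by
    have : (0 : ℝ) < k := by exact_mod_cast hk
    linarith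
  have hδ : (0 : ℝ) ≤ 1 / (2 * k) := by positivity
  by_cases hc : ∃ t, t < 2 * k + 2 ∧ ∃ s < t, A.place s (Sstar k) = A.place t (Sstar k)
  · classical
    obtain ⟨ht1, s, hs1, hs2⟩ := Nat.find_spec hc
    have hmin : ∀ u, u < Nat.find hc → ¬(u < 2 * k + 2 ∧ ∃ s < u,
        A.place s (Sstar k) = A.place u (Sstar k)) := fun u hu => Nat.find_min hc hu
    generalize Nat.find hc = T at ht1 hs1 hs2 hmin
    refine ineq_some (xs k) (fun i => A.cost (Sx k i) (m + 1) / (2 * xs k i)) k (T / 2)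
      (A.cost (Sstar k) (2 * k + 2)) (1 / (2 * k)) (xs_zero k) (xs_last hk) (xs_pos hk)
      (fun i => xs_anti (Nat.le_succ i)) (xs_gap hk) hδ (by omega) ?_ ?_ ?_
    · intro i hi
      have h1 := cost_Sx_sep (m := m) A (i := i) hk fun s t hst ht heq =>
        hmin t (by omega) ⟨by omega, s, hst, heq⟩
      have h2 := xs_pos hk i
      rw [le_div_iff₀ (by linarith)]
      linarith
    · intro i hi hji
      have h1 := cost_Sx_coll A (i := i) hk hkm hi hs1 (by omega) hs2
      have h2 := xs_pos hk i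
      rw [div_le_div_iff₀ h2 (by linarith)]
      nlinarith
    · exact cost_Sstar_coll A hk hs1 ht1 hs2
  · push Not at hc
    have h := ineq_none (xs k) (fun i => A.cost (Sx k i) (m + 1) / (2 * xs k i)) k
      (A.cost (Sstar k) (2 * k + 2)) (xs_zero k) (xs_last hk) (xs_pos hk)
      (fun i => xs_anti (Nat.le_succ i)) (fun i hi => by
        have h1 := cost_Sx_sep (m := m) A (i := i) hk fun s t hst ht heq =>
          hc t (by omega) s hst heq
        have h2 := xs_pos hk i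
        rw [le_div_iff₀ (by linarith)]
        linarith) (one_le_cost_Sstar A hk)
    refine le_trans ?_ h
    linarith

theorem weights_sum {k : ℕ} (hk : 1 ≤ k) :
    ∑ l ∈ Finset.range k, 16 / 17 * (xs k l ^ 3 - xs k (l + 1) ^ 3) + 3 / 17 = 1 := by
  have h : ∀ n, ∑ l ∈ Finset.range n, 16 / 17 * (xs k l ^ 3 - xs k (l + 1) ^ 3)
      = 16 / 17 * (1 - xs k n ^ 3) := by
    intro n
    induction n with
    | zero => simp [xs_zero]
    | succ n ih => rw [Finset.sum_range_succ, ih]; ring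
  rw [h k, xs_last hk]
  norm_num

theorem rand_lower_many {k : ℕ} (hk : 1 ≤ k) (hkm : 2 * k + 2 ≤ m) (A : Randomized m) (c : ℝ)
    (hc : Competitive m (m + 1) A.cost c) : 24 / 17 * (1 - 1 / (2 * k : ℝ)) ≤ c := by
  have hm0 : 0 < m := by omega
  have hc0 := competitive_pos_rand hm0 (by omega) A c hc
  refine lower_of_family hm0 (Finset.range (k + 1))
    (fun l => if l < k then 16 / 17 * (xs k l ^ 3 - xs k (l + 1) ^ 3) else 3 / 17)
    (fun l => if l < k then 2 * xs k (l + 1) else 1)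
    (fun l => if l < k then Sx k (l + 1) else Sstar k)
    (fun l => if l < k then m + 1 else 2 * k + 2) (m + 1)
    (24 / 17 * (1 - 1 / (2 * k : ℝ))) ?_ ?_ ?_ ?_ ?_ ?_ ?_ A c hc0.le hc
  · intro l _
    beta_reduce
    split_ifs
    · have := cube_mono (xs_pos hk (l + 1)) (xs_anti (k := k) (Nat.le_succ l))
      linarith
    · norm_num
  · intro l _
    beta_reduce
    split_ifs
    · have := xs_pos hk (l + 1)
      linarith
    · exact one_pos
  · rw [Finset.sum_range_succ, if_neg (lt_irrefl k), ← weights_sum hk]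
    congr 1
    refine Finset.sum_congr rfl fun l hl => ?_
    rw [if_pos (Finset.mem_range.1 hl)]
  · intro l _ t
    beta_reduce
    split_ifs
    · exact Sx_pos hk _ _
    · exact Sstar_pos hk _
  · intro l _
    beta_reduce
    split_ifs <;> omega
  · intro l _
    beta_reduce
    split_ifs with h
    · exact opt_Sx hk hkm (by omega)
    · exact opt_Sstar hm0 hk hkm
  · intro A
    rw [Finset.sum_range_succ]
    simp only [if_neg (lt_irrefl k), div_one]
    refine (main_ineq A hk hkm).trans (le_of_eq ?_)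
    congr 1
    refine Finset.sum_congr rfl fun l hl => ?_
    simp only [if_pos (Finset.mem_range.1 hl)]

end Pool.Agent.Lib_MP_25a3c1
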