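import Pool.Agent.Lib_MP_25a3c1.Upper

namespace Pool.Agent.Lib_MP_25a3c1

open MeasureTheory

variable {m : ℕ}

/-- the thresholds are `1 / rr K t`, `t = 0, ..., K` -/
noncomputable def rr (K t : ℕ) : ℝ := 1 + t / K

/-- the weights of the thresholds -/
noncomputable def wt (K : ℕ) : ℕ → ℝ
  | 0 => 3 / 17
  | t + 1 => 2 / 17 * (rr K (t + 1) ^ 3 - rr K t ^ 3)

theorem rr_zero (K : ℕ) : rr K 0 = 1 := by simp [rr]

theorem rr_top {K : ℕ} (hK : 0 < K) : rr K K = 2 := by
  have : (K : ℝ) ≠ 0 := by positivity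
  rw [rr, div_self this]; norm_num

theorem rr_mono (K : ℕ) {s t : ℕ} (h : s ≤ t) : rr K s ≤ rr K t := by
  unfold rr
  gcongr

theorem rr_one_le (K t : ℕ) : 1 ≤ rr K t := by
  unfold rr
  have : (0 : ℝ) ≤ t / K := by positivity
  linarith

theorem wt_nonneg (K t : ℕ) : 0 ≤ wt K t := by
  cases t with
  | zero => norm_num [wt]
  | succ t =>
    rw [wt]
    have h1 := rr_mono K (Nat.le_succ t)
    have h2 := rr_one_le K t
    have h3 : rr K t ^ 3 ≤ rr K (t + 1) ^ 3 := pow_le_pow_left₀ (by linarith) h1 3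
    linarith

theorem sum_wt (K J : ℕ) :
    ∑ t ∈ Finset.range (J + 1), wt K t = 1 / 17 + 2 / 17 * rr K J ^ 3 := by
  induction J with
  | zero => simp [wt, rr_zero]; norm_num
  | succ J ih =>
    rw [Finset.sum_range_succ, ih, wt]
    ring

theorem sum_wt_div (K J : ℕ) :
    ∑ t ∈ Finset.range (J + 1), wt K t / rr K t ≤ 3 / 17 * rr K J ^ 2 := by
  induction J with
  | zero => simp [wt, rr_zero]
  | succ J ih =>
    rw [Finset.sum_range_succ, wt]
    have h1 := rr_mono K (Nat.le_succ J)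
    have h2 := rr_one_le K J
    set a := rr K J
    set b := rr K (J + 1)
    have hb : 0 < b := by linarith
    have h3 : 2 / 17 * (b ^ 3 - a ^ 3) / b ≤ 3 / 17 * (b ^ 2 - a ^ 2) := by
      rw [div_le_iff₀ hb]
      nlinarith [mul_nonneg (sq_nonneg (b - a)) (show 0 ≤ b + 2 * a by linarith)]
    linarith

/-- averaging -/
theorem sum_le {K : ℕ} (hK : 0 < K) (V O : ℝ) (hV1 : 1 ≤ V) (hV2 : V ≤ 2) (hO : 0 ≤ O)
    (c : ℕ → ℝ) (h1 : ∀ t ≤ K, rr K t ≤ V → c t ≤ V * O / rr K t)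
    (h2 : ∀ t ≤ K, V < rr K t → c t ≤ 3 / 2 * O) :
    ∑ t ∈ Finset.range (K + 1), wt K t * c t ≤ (24 / 17 + 1 / K) * O := by
  have hK0 : (0 : ℝ) < K := by exact_mod_cast hK
  -- the largest index with threshold condition
  obtain ⟨J, hJK, hJV, hJ1⟩ : ∃ J ≤ K, rr K J ≤ V ∧ (∀ t ≤ K, J < t → V < rr K t) ∧
      V ≤ rr K J + 1 / K := by
    refine ⟨⌊(K : ℝ) * (V - 1)⌋₊, ?_, ?_, ?_, ?_⟩
    · have h3 : (K : ℝ) * (V - 1) ≤ K := by nlinarith
      exact_mod_cast (Nat.floor_le (by nlinarith)).trans h3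
    · have h3 := Nat.floor_le (show 0 ≤ (K : ℝ) * (V - 1) by nlinarith)
      have h4 : (⌊(K : ℝ) * (V - 1)⌋₊ : ℝ) / K ≤ V - 1 := by
        rw [div_le_iff₀ hK0]; linarith
      unfold rr
      linarith
    · intro t _ ht
      have h3 := (Nat.floor_lt (show 0 ≤ (K : ℝ) * (V - 1) by nlinarith)).1 ht
      have h4 : V - 1 < (t : ℝ) / K := by
        rw [lt_div_iff₀ hK0]; linarith
      unfold rr
      linarith
    · have h3 := Nat.lt_floor_add_one ((K : ℝ) * (V - 1))
      have h4 : V - 1 ≤ ((⌊(K : ℝ) * (V - 1)⌋₊ : ℝ) + 1) / K := by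
        rw [le_div_iff₀ hK0]; linarith
      unfold rr
      rw [add_div] at h4
      linarith
  obtain ⟨hJ1, hJ2⟩ := hJ1
  have hsplit : Finset.range (K + 1) = Finset.range (J + 1) ∪ Finset.Ico (J + 1) (K + 1) := by
    ext t
    simp only [Finset.mem_range, Finset.mem_union, Finset.mem_Ico]
    omega
  have hdisj : Disjoint (Finset.range (J + 1)) (Finset.Ico (J + 1) (K + 1)) := by
    rw [Finset.disjoint_left]
    intro t h3 h4
    simp only [Finset.mem_range, Finset.mem_Ico] at h3 h4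
    omega
  have hA : ∑ t ∈ Finset.range (J + 1), wt K t * c t ≤ V * O * (3 / 17 * rr K J ^ 2) := by
    refine le_trans ?_ (mul_le_mul_of_nonneg_left (sum_wt_div K J)
      (mul_nonneg (by linarith) hO))
    rw [Finset.mul_sum]
    refine Finset.sum_le_sum fun t ht => ?_
    rw [Finset.mem_range] at ht
    have h3 := h1 t (by omega) ((rr_mono K (by omega)).trans hJV)
    refine (mul_le_mul_of_nonneg_left h3 (wt_nonneg K t)).trans (le_of_eq ?_)
    ring
  have htot : ∑ t ∈ Finset.range (K + 1), wt K t = 1 := by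
    rw [sum_wt, rr_top hK]; norm_num
  have hB : ∑ t ∈ Finset.Ico (J + 1) (K + 1), wt K t * c t
      ≤ (1 - (1 / 17 + 2 / 17 * rr K J ^ 3)) * (3 / 2 * O) := by
    have h4 : ∑ t ∈ Finset.Ico (J + 1) (K + 1), wt K t
        = 1 - (1 / 17 + 2 / 17 * rr K J ^ 3) := by
      rw [hsplit, Finset.sum_union hdisj, sum_wt] at htot
      linarith
    rw [← h4, Finset.sum_mul]
    refine Finset.sum_le_sum fun t ht => ?_
    rw [Finset.mem_Ico] at ht
    exact mul_le_mul_of_nonneg_left (h2 t (by omega) (hJ1 t (by omega) (by omega)))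
      (wt_nonneg K t)
  rw [hsplit, Finset.sum_union hdisj]
  have hr1 := rr_one_le K J
  have hr2 : rr K J ≤ 2 := hJV.trans hV2
  set R := rr K J
  have hR2 : R ^ 2 ≤ 4 := by nlinarith
  have hfin : V * (3 / 17 * R ^ 2) + (1 - (1 / 17 + 2 / 17 * R ^ 3)) * (3 / 2)
      ≤ 24 / 17 + 1 / K := by
    have h5 : 3 / 17 * R ^ 2 * (V - R) ≤ 3 / 17 * R ^ 2 * (1 / K) :=
      mul_le_mul_of_nonneg_left (by linarith) (by positivity)
    have h6 : 3 / 17 * R ^ 2 * (1 / K) ≤ 1 * (1 / (K : ℝ)) :=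
      mul_le_mul_of_nonneg_right (by linarith) (by positivity)
    nlinarith
  calc _ ≤ V * O * (3 / 17 * R ^ 2) + (1 - (1 / 17 + 2 / 17 * R ^ 3)) * (3 / 2 * O) :=
        add_le_add hA hB
    _ = (V * (3 / 17 * R ^ 2) + (1 - (1 / 17 + 2 / 17 * R ^ 3)) * (3 / 2)) * O := by ring
    _ ≤ _ := mul_le_mul_of_nonneg_right hfin hO

/-- the random threshold algorithm -/
noncomputable def mix (m : ℕ) (hm : 0 < m) (K : ℕ) (hK : 0 < K) : Randomized m where
  Ω := ℕ
  mΩ := ⊤
  μ := ∑ t ∈ Finset.range (K + 1), ENNReal.ofReal (wt K t) • (@Measure.dirac ℕ ⊤ t)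
  prob := by
    constructor
    simp only [Measure.coe_finsetSum, Finset.sum_apply, Measure.smul_apply, smul_eq_mul,
      measure_univ, mul_one]
    rw [← ENNReal.ofReal_sum_of_nonneg fun t _ => wt_nonneg K t, sum_wt, rr_top hK]
    norm_num
  alg t := thr m hm (1 / rr K t)
  meas _ _ _ := trivial

theorem mix_cost (hm : 0 < m) {K : ℕ} (hK : 0 < K) (p : ℕ → ℝ) (n : ℕ) :
    (mix m hm K hK).cost p n
      = ∑ t ∈ Finset.range (K + 1), wt K t * (thr m hm (1 / rr K t)).cost p n := by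
  unfold Randomized.cost mix
  dsimp only
  rw [integral_finsetSum_measure]
  · refine Finset.sum_congr rfl fun t _ => ?_
    rw [integral_smul_measure, integral_dirac, ENNReal.toReal_ofReal (wt_nonneg K t)]
    rfl
  · intro t _
    refine Integrable.smul_measure ?_ ENNReal.ofReal_ne_top
    exact integrable_dirac (by simp)

theorem rand_upper (hm : 2 ≤ m) (K : ℕ) (hK : 0 < K) :
    ∃ A : Randomized m, Competitive m (m + 1) A.cost (24 / 17 + 1 / K) := by
  have hm0 : 0 < m := by omega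
  refine ⟨mix m hm0 K hK, fun p n hp hn => ?_⟩
  rw [mix_cost]
  obtain ⟨V, hV1, hV2, hV⟩ := key hm hp hn
  exact sum_le hK V _ hV1 hV2 (opt_nonneg hm0 hp n) _
    (fun t ht h => (hV _ (rr_one_le K t) ((rr_mono K ht).trans (rr_top hK).le)).1 h)
    (fun t ht h => (hV _ (rr_one_le K t) ((rr_mono K ht).trans (rr_top hK).le)).2 h)

end Pool.Agent.Lib_MP_25a3c1
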