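import Pool.Agent.Lib_MP_25a3c1.Algo

namespace Pool.Agent.Lib_MP_25a3c1

open MeasureTheory

variable {m : ℕ}

theorem cost_small (hm : 0 < m) {y : ℝ} (hy : 0 ≤ y) {p : ℕ → ℝ} (hp : ∀ i, 0 < p i)
    {n : ℕ} (hn : n ≤ m) :
    (thr m hm y).cost p n ≤ max 1 (2 * y) * opt m p n := by
  have hO := opt_nonneg hm hp n
  have h1 : opt m p n ≤ max 1 (2 * y) * opt m p n :=
    le_mul_of_one_le_left hO (le_max_left _ _)
  by_cases h : ∃ t < m, First y p t
  · obtain ⟨t, ht, hf⟩ := h
    refine cost_merged hm y hp ht hf (by omega) _ (hO.trans h1)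
      (fun i hi => (job_le_opt hm hp hi).trans h1) fun htn => ?_
    refine hf.1.2.trans ?_
    exact mul_le_mul (le_max_right _ _) (mx_le_opt hm hp htn)
      ((hp 0).le.trans (mx_le p t 0 (by omega))) (by positivity)
  · push Not at h
    exact cost_unmerged hm y hp h hn _ (hO.trans h1)
      fun i hi => (job_le_opt hm hp hi).trans h1

theorem cost_last_small (hm : 0 < m) {y : ℝ} (hy : 0 ≤ y) {p : ℕ → ℝ} (hp : ∀ i, 0 < p i)
    (hab : p (am p (m - 1)) + p m ≤ opt m p (m + 1)) :
    (thr m hm y).cost p (m + 1) ≤ max 1 (2 * y) * opt m p (m + 1) := by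
  have hO := opt_nonneg hm hp (m + 1)
  have h1 : opt m p (m + 1) ≤ max 1 (2 * y) * opt m p (m + 1) :=
    le_mul_of_one_le_left hO (le_max_left _ _)
  by_cases h : ∃ t < m, First y p t
  · obtain ⟨t, ht, hf⟩ := h
    refine cost_merged hm y hp ht hf le_rfl _ (hO.trans h1)
      (fun i hi => (job_le_opt hm hp hi).trans h1) fun htn => ?_
    refine hf.1.2.trans ?_
    exact mul_le_mul (le_max_right _ _) (mx_le_opt hm hp htn)
      ((hp 0).le.trans (mx_le p t 0 (by omega))) (by positivity)
  · push Not at h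
    exact cost_unmerged_last hm y hp h _
      (fun i hi => (job_le_opt hm hp (by omega)).trans h1) (hab.trans h1)

theorem cost_last_cond (hm : 0 < m) {y : ℝ} (hy : 0 ≤ y) {p : ℕ → ℝ} (hp : ∀ i, 0 < p i)
    {j : ℕ} (hj : j < m) (hc : Cond y p j) :
    (thr m hm y).cost p (m + 1) ≤ max (opt m p (m + 1)) (2 * y * mx p j) := by
  have hO := opt_nonneg hm hp (m + 1)
  obtain ⟨t, ht, hf⟩ := exists_first hc
  refine cost_merged hm y hp (by omega) hf le_rfl _ (hO.trans (le_max_left _ _))
    (fun i hi => (job_le_opt hm hp hi).trans (le_max_left _ _)) fun _ => ?_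
  refine hf.1.2.trans (le_trans ?_ (le_max_right _ _))
  exact mul_le_mul_of_nonneg_left (mx_mono p ht) (by positivity)

theorem cost_last_not (hm : 0 < m) {y : ℝ} {p : ℕ → ℝ} (hp : ∀ i, 0 < p i)
    {j : ℕ} (hj : j < m) (hc : ∀ t ≤ j, ¬ Cond y p t) :
    (thr m hm y).cost p (m + 1) ≤ p (am p j) + opt m p (m + 1) := by
  have hO := opt_nonneg hm hp (m + 1)
  have ha := hp (am p j)
  by_cases h : ∃ t < m, First y p t
  · obtain ⟨t, ht, hf⟩ := h
    have hjt : j < t := by
      by_contra h1
      exact hc t (by omega) hf.1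
    have h2 : p (am p (t - 1)) ≤ p (am p j) :=
      am_min p (t - 1) _ ((am_le p j).trans (by omega))
    refine cost_merged hm y hp ht hf le_rfl _ (by linarith)
      (fun i hi => (job_le_opt hm hp hi).trans (by linarith)) fun _ => ?_
    have h3 := job_le_opt hm hp (show t < m + 1 by omega)
    linarith
  · push Not at h
    have h2 : p (am p (m - 1)) ≤ p (am p j) :=
      am_min p (m - 1) _ ((am_le p j).trans (by omega))
    have h3 := job_le_opt hm hp (show m < m + 1 by omega)
    exact cost_unmerged_last hm y hp h _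
      (fun i hi => (job_le_opt (n := m + 1) hm hp (by omega)).trans (by linarith)) (by linarith)

/-- the two smallest of the first `m` jobs -/
theorem exists_two (hm : 2 ≤ m) (p : ℕ → ℝ) :
    ∃ i j, i < j ∧ j < m ∧ ∀ k < m, k ≠ i → k ≠ j → p i ≤ p k ∧ p j ≤ p k := by
  obtain ⟨a, ha, ha2⟩ := Finset.exists_min_image (Finset.range m) p ⟨0, by simp; omega⟩
  have hne : ((Finset.range m).erase a).Nonempty := by
    rw [← Finset.card_pos, Finset.card_erase_of_mem ha, Finset.card_range]
    omega
  obtain ⟨b, hb, hb2⟩ := Finset.exists_min_image _ p hne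
  rw [Finset.mem_range] at ha
  rw [Finset.mem_erase, Finset.mem_range] at hb
  have key : ∀ k < m, k ≠ a → k ≠ b → p a ≤ p k ∧ p b ≤ p k := fun k hk h1 h2 =>
    ⟨ha2 k (Finset.mem_range.2 hk),
      hb2 k (Finset.mem_erase.2 ⟨h1, Finset.mem_range.2 hk⟩)⟩
  rcases lt_or_gt_of_ne hb.1 with h | h
  · exact ⟨b, a, h, ha, fun k hk h1 h2 => (key k hk h2 h1).symm⟩
  · exact ⟨a, b, h, hb.2, key⟩

theorem two_le_pair {p : ℕ → ℝ} {i j : ℕ}
    (h : ∀ k < m, k ≠ i → k ≠ j → p i ≤ p k ∧ p j ≤ p k) {k l : ℕ} (hkl : k ≠ l)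
    (hk : k < m) (hl : l < m) : p i + p j ≤ p k + p l := by
  by_cases h1 : k = i
  · subst h1
    by_cases h2 : l = j
    · subst h2; exact le_rfl
    · have := (h l hl (Ne.symm hkl) h2).2
      linarith
  · by_cases h2 : k = j
    · subst h2
      by_cases h3 : l = i
      · subst h3; linarith
      · have := (h l hl h3 (Ne.symm hkl)).1
        linarith
    · have hk1 := h k hk h1 h2
      by_cases h3 : l = i
      · subst h3; linarith
      · by_cases h4 : l = j
        · subst h4; linarith
        · have := h l hl h3 h4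
          linarith

/-- The key estimate: for every sequence there is `V` in `[1,2]` such that the algorithm
with threshold `1/r` costs at most `V/r` times the optimum if `r <= V`, and at most `3/2`
times the optimum otherwise. -/
theorem key (hm : 2 ≤ m) {p : ℕ → ℝ} (hp : ∀ i, 0 < p i) {n : ℕ} (hn : n ≤ m + 1) :
    ∃ V : ℝ, 1 ≤ V ∧ V ≤ 2 ∧ ∀ r : ℝ, 1 ≤ r → r ≤ 2 →
      (r ≤ V → (thr m (by omega) (1 / r)).cost p n ≤ V * opt m p n / r) ∧
      (V < r → (thr m (by omega) (1 / r)).cost p n ≤ 3 / 2 * opt m p n) := by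
  have hm0 : 0 < m := by omega
  have hO := opt_nonneg hm0 hp n
  have easy : (∀ r : ℝ, 1 ≤ r → r ≤ 2 →
      (thr m hm0 (1 / r)).cost p n ≤ max 1 (2 * (1 / r)) * opt m p n) →
      ∃ V : ℝ, 1 ≤ V ∧ V ≤ 2 ∧ ∀ r : ℝ, 1 ≤ r → r ≤ 2 →
      (r ≤ V → (thr m (by omega) (1 / r)).cost p n ≤ V * opt m p n / r) ∧
      (V < r → (thr m (by omega) (1 / r)).cost p n ≤ 3 / 2 * opt m p n) := by
    intro h
    refine ⟨2, by norm_num, le_rfl, fun r h1 h2 => ⟨fun _ => ?_, fun h3 => by linarith⟩⟩
    refine (h r h1 h2).trans (le_of_eq ?_)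
    rw [max_eq_right]
    · ring
    · rw [mul_one_div, le_div_iff₀ (by linarith)]
      linarith
  rcases Nat.lt_or_ge m n with hn1 | hn1
  swap
  · exact easy fun r h1 h2 => cost_small hm0 (by positivity) hp hn1
  obtain rfl : n = m + 1 := by omega
  obtain ⟨i, j, hij, hj, h2s⟩ := exists_two hm p
  by_cases hb : p m < max (p i) (p j)
  · refine easy fun r h1 h2 => cost_last_small hm0 (by positivity) hp ?_
    have hmin := am_min p (m - 1)
    refine pair_le_opt hm0 hp _ fun k l hkl hl => ?_
    rcases Nat.lt_or_ge l m with h3 | h3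
    · have h4 := two_le_pair h2s hkl.ne (by omega) h3
      have h5 := hmin i (by omega)
      have h6 := hmin j (by omega)
      rcases le_total (p i) (p j) with h7 | h7
      · rw [max_eq_right h7] at hb; linarith
      · rw [max_eq_left h7] at hb; linarith
    · obtain rfl : l = m := by omega
      have h5 := hmin k (by omega)
      linarith
  push Not at hb
  have hbi : p i ≤ p m := (le_max_left _ _).trans hb
  have hbj : p j ≤ p m := (le_max_right _ _).trans hb
  set s := p i + p j with hs
  set M := mx p j with hM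
  set O := opt m p (m + 1) with hOdef
  have hs0 : 0 < s := add_pos (hp i) (hp j)
  have hsO : s ≤ O := by
    refine pair_le_opt hm0 hp _ fun k l hkl hl => ?_
    rcases Nat.lt_or_ge l m with h3 | h3
    · exact two_le_pair h2s hkl.ne (by omega) h3
    · obtain rfl : l = m := by omega
      by_cases hki : k = i
      · subst hki; linarith
      · by_cases hkj : k = j
        · subst hkj; linarith
        · have := h2s k hkl hki hkj
          linarith
  have hMO : M ≤ O := mx_le_opt hm0 hp (by omega)
  have hsM : s ≤ 2 * M := by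
    have h1 := mx_le p j i hij.le
    have h2 := mx_le p j j le_rfl
    linarith
  have hM0 : 0 < M := by linarith
  have hO0 : 0 < O := by linarith
  have ham : p (am p (j - 1)) = p i := by
    refine le_antisymm (am_min p (j - 1) i (by omega)) ?_
    have h1 := am_le p (j - 1)
    by_cases h2 : am p (j - 1) = i
    · rw [h2]
    · exact (h2s (am p (j - 1)) (by omega) h2 (by omega)).1
  have hcond : ∀ y : ℝ, s ≤ 2 * y * M → Cond y p j := fun y h =>
    ⟨by omega, by rw [ham]; exact h⟩
  have hncond : ∀ y : ℝ, 0 ≤ y → 2 * y * M < s → ∀ t ≤ j, ¬ Cond y p t := by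
    intro y hy h t ht hc
    have h1 : 1 ≤ t := hc.1
    have h2 := am_le p (t - 1)
    have h3 := two_le_pair h2s (show am p (t - 1) ≠ t by omega) (by omega) (by omega)
    have h4 := hc.2
    have h5 : 2 * y * mx p t ≤ 2 * y * M :=
      mul_le_mul_of_nonneg_left (mx_mono p ht) (by positivity)
    linarith
  have hnot : ∀ r : ℝ, 1 ≤ r → 2 * M < r * s →
      (thr m hm0 (1 / r)).cost p (m + 1) ≤ 3 / 2 * O := by
    intro r hr h
    have h1 := cost_last_not hm0 (y := 1 / r) hp hj (hncond _ (by positivity) (by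
      rw [mul_one_div, div_mul_eq_mul_div, div_lt_iff₀ (by linarith)]
      linarith))
    have h2 := am_min p j i hij.le
    have h3 := am_min p j j le_rfl
    linarith
  have hyes : ∀ r : ℝ, 1 ≤ r → r * s ≤ 2 * M →
      (thr m hm0 (1 / r)).cost p (m + 1) ≤ max O (2 * M / r) := by
    intro r hr h
    have h1 := cost_last_cond hm0 (y := 1 / r) (by positivity) hp hj (hcond _ (by
      rw [mul_one_div, div_mul_eq_mul_div, le_div_iff₀ (by linarith)]
      linarith))
    rwa [mul_one_div, div_mul_eq_mul_div] at h1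
  rcases le_or_gt s M with hsM' | hsM'
  · -- V = 2
    refine ⟨2, by norm_num, le_rfl, fun r h1 h2 => ⟨fun _ => ?_, fun h3 => by linarith⟩⟩
    have h3 : r * s ≤ 2 * M := by nlinarith
    refine (hyes r h1 h3).trans (max_le ?_ ?_)
    · rw [le_div_iff₀ (by linarith)]
      nlinarith
    · gcongr
  · refine ⟨2 * M / s, ?_, ?_, fun r h1 h2 => ⟨fun h3 => ?_, fun h3 => ?_⟩⟩
    · rw [le_div_iff₀ hs0]; linarith
    · rw [div_le_iff₀ hs0]; linarith
    · rw [le_div_iff₀ hs0] at h3
      refine (hyes r h1 h3).trans (max_le ?_ ?_)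
      · rw [le_div_iff₀ (by linarith), div_mul_eq_mul_div, le_div_iff₀ hs0]
        nlinarith
      · have h4 : 2 * M ≤ 2 * M / s * O := by
          rw [div_mul_eq_mul_div, le_div_iff₀ hs0]
          nlinarith
        exact div_le_div_of_nonneg_right h4 (by linarith)
    · rw [div_lt_iff₀ hs0] at h3
      exact hnot r h1 h3

/-- List Scheduling -/
theorem det_upper (hm : 2 ≤ m) :
    ∃ A : Online m, Competitive m (m + 1) A.cost (3 / 2) := by
  have hm0 : 0 < m := by omega
  refine ⟨thr m hm0 0, fun p n hp hn => ?_⟩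
  have hO := opt_nonneg hm0 hp n
  have e0 : max (1 : ℝ) (2 * 0) = 1 := by norm_num
  rcases Nat.lt_or_ge m n with hn1 | hn1
  swap
  · have := cost_small hm0 (le_refl (0 : ℝ)) hp hn1
    rw [e0] at this
    linarith
  obtain rfl : n = m + 1 := by omega
  obtain ⟨i, j, hij, hj, h2s⟩ := exists_two hm p
  by_cases hb : p m < max (p i) (p j)
  · have hab : p (am p (m - 1)) + p m ≤ opt m p (m + 1) := by
      have hmin := am_min p (m - 1)
      refine pair_le_opt hm0 hp _ fun k l hkl hl => ?_
      rcases Nat.lt_or_ge l m with h3 | h3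
      · have h4 := two_le_pair h2s hkl.ne (by omega) h3
        have h5 := hmin i (by omega)
        have h6 := hmin j (by omega)
        rcases le_total (p i) (p j) with h7 | h7
        · rw [max_eq_right h7] at hb; linarith
        · rw [max_eq_left h7] at hb; linarith
      · obtain rfl : l = m := by omega
        have h5 := hmin k (by omega)
        linarith
    have := cost_last_small hm0 (le_refl (0 : ℝ)) hp hab
    rw [e0] at this
    linarith
  push Not at hb
  have hbi : p i ≤ p m := (le_max_left _ _).trans hb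
  have hbj : p j ≤ p m := (le_max_right _ _).trans hb
  have hsO : p i + p j ≤ opt m p (m + 1) := by
    refine pair_le_opt hm0 hp _ fun k l hkl hl => ?_
    rcases Nat.lt_or_ge l m with h3 | h3
    · exact two_le_pair h2s hkl.ne (by omega) h3
    · obtain rfl : l = m := by omega
      by_cases hki : k = i
      · subst hki; linarith
      · by_cases hkj : k = j
        · subst hkj; linarith
        · have := h2s k hkl hki hkj
          linarith
  have h1 := cost_last_not hm0 (y := 0) hp hj fun t ht hc => by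
    have h2 := hc.2
    have h3 := hp (am p (t - 1))
    have h4 := hp t
    norm_num at h2
    linarith
  have h2 := am_min p j i hij.le
  have h3 := am_min p j j le_rfl
  linarith

end Pool.Agent.Lib_MP_25a3c1
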